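import Pool.Agent.H220.IC.Stm

/-! S_lip: the Lipschitz bound (adapted from the library module `K4H42/ICI`). -/

set_option autoImplicit false

open Finset

namespace Pool.Agent.H363.IC

open Pool.Agent.H220.IC

theorem norm_col_le (Pt : Finset ℕ) (u : ℕ → ℕ) (hu : Set.InjOn u Pt) (c : ℕ → ℝ) (x y : ℕ)
    (C : ℝ) (hC : 0 ≤ C) (hc : ∑ p ∈ Pt, c p ^ 2 ≤ C ^ 2) :
    ‖∑ p ∈ Pt, c p • (del (u p) x - del (u p) y)‖ ≤ C := by
  refine norm_le_of_ev hC fun S => ?_
  have e : ev S (∑ p ∈ Pt, c p • (del (u p) x - del (u p) y)) =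
      ∑ p ∈ Pt, c p * (S.1 (u p) x - S.1 (u p) y) := by
    rw [map_sum]
    refine sum_congr rfl fun p _ => ?_
    rw [map_smul, map_sub, ev_del, ev_del, smul_eq_mul]
  rw [e]
  apply abs_le_of_sq_le_sq _ hC
  have h1 : ∑ p ∈ Pt, (S.1 (u p) x - S.1 (u p) y) ^ 2 ≤ 1 := by
    have h2 : ∑ α ∈ Pt.image u, (S.1 α x - S.1 α y) ^ 2 =
        ∑ p ∈ Pt, (S.1 (u p) x - S.1 (u p) y) ^ 2 := sum_image hu
    rw [← h2]
    have h0 : 0 ≤ ∑ α ∈ Pt.image u, (S.1 α x - S.1 α y) ^ 2 := sum_nonneg fun _ _ => sq_nonneg _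
    have hs : (∑ α ∈ Pt.image u, (S.1 α x - S.1 α y) ^ 2) ^ 2 ≤ 1 := by
      rcases le_total x y with h | h
      · refine le_trans (le_of_eq ?_) (S.2.single (Pt.image u) h)
        have e2 : ∑ α ∈ Pt.image u, (S.1 α x - S.1 α y) ^ 2 =
            ∑ α ∈ Pt.image u, (S.1 α y - S.1 α x) ^ 2 :=
          sum_congr rfl fun α _ => by ring
        rw [e2]
      · exact S.2.single (Pt.image u) h
    nlinarith
  calc (∑ p ∈ Pt, c p * (S.1 (u p) x - S.1 (u p) y)) ^ 2
      ≤ (∑ p ∈ Pt, c p ^ 2) * ∑ p ∈ Pt, (S.1 (u p) x - S.1 (u p) y) ^ 2 :=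
        sum_mul_sq_le_sq_mul_sq _ _ _
    _ ≤ C ^ 2 * 1 := mul_le_mul hc h1 (sum_nonneg fun _ _ => sq_nonneg _) (sq_nonneg _)
    _ = C ^ 2 := mul_one _

theorem sg_sq (N i : ℕ) : sg N i ^ 2 = 1 := by
  unfold sg
  split_ifs <;> norm_num

theorem coef_sum (N i : ℕ) (hN : 1 ≤ N) (Pt : Finset ℕ) (hPt : Pt ⊆ range (N ^ 6)) :
    ∑ p ∈ Pt, (fun _ : ℕ => sg N i / (N : ℝ) ^ 3) p ^ 2 ≤ 2 ^ 2 := by
  have hN' : (0 : ℝ) < N := by exact_mod_cast hN
  have h1 : ∀ p ∈ Pt, (fun _ : ℕ => sg N i / (N : ℝ) ^ 3) p ^ 2 = 1 / (N : ℝ) ^ 6 := by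
    intro p _
    simp only
    rw [div_pow, sg_sq, ← pow_mul]
  rw [sum_congr rfl h1, sum_const, nsmul_eq_mul]
  have h2 : (Pt.card : ℝ) ≤ (N : ℝ) ^ 6 := by
    have h3 := card_le_card hPt
    rw [card_range] at h3
    exact_mod_cast h3
  have h4 : (Pt.card : ℝ) * (1 / (N : ℝ) ^ 6) ≤ (N : ℝ) ^ 6 * (1 / (N : ℝ) ^ 6) :=
    mul_le_mul_of_nonneg_right h2 (by positivity)
  have h5 : (N : ℝ) ^ 6 * (1 / (N : ℝ) ^ 6) = 1 := by
    field_simp
  linarith

theorem s_lip (hrow : S_row) : S_lip := by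
  intro N u u' hN hu hu' hinj
  set t : ℕ → ℕ := fun i => u (N ^ 6 + i) with ht
  set t' : ℕ → ℕ := fun i => u' (N ^ 6 + i) with ht'
  have htm : Monotone t := fun i j hij => hu (by omega)
  have htm' : Monotone t' := fun i j hij => hu' (by omega)
  have h1 : FF N u - FF N u' =
      (∑ p ∈ range (N ^ 6), if u p ≠ u' p then
        row N (u p) t - row N (u' p) t' else 0) +
      ∑ i ∈ range (2 * N ^ 6), ∑ p ∈ (range (N ^ 6)).filter (fun p => u p = u' p),
        (fun _ : ℕ => sg N i / (N : ℝ) ^ 3) p • (del (u p) (t i) - del (u p) (t' i)) := by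
    rw [sum_comm, sum_filter, ← sum_add_distrib]
    unfold FF
    rw [← sum_sub_distrib]
    refine sum_congr rfl fun p _ => ?_
    by_cases hp : u p = u' p
    · rw [if_neg (by simpa using hp), if_pos hp, zero_add, ← hp]
      unfold row
      rw [← sum_sub_distrib]
      refine sum_congr rfl fun i _ => ?_
      rw [← smul_sub]
    · rw [if_pos hp, if_neg hp, add_zero]
  rw [h1]
  refine (norm_add_le _ _).trans ?_
  rw [sum_range_add, mul_add]
  refine add_le_add ?_ ?_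
  · rw [mul_sum]
    refine (norm_sum_le _ _).trans (sum_le_sum fun p _ => ?_)
    by_cases h : u p = u' p
    · simp [h]
    · rw [if_pos h, if_pos h, mul_one]
      refine (norm_sub_le _ _).trans ?_
      have h2 := hrow N (u p) t hN htm
      have h3 := hrow N (u' p) t' hN htm'
      linarith
  · rw [mul_sum]
    refine (norm_sum_le _ _).trans (sum_le_sum fun i _ => ?_)
    by_cases h : u (N ^ 6 + i) = u' (N ^ 6 + i)
    · rw [if_neg (by simpa using h), mul_zero]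
      refine le_of_eq ?_
      rw [norm_eq_zero]
      refine sum_eq_zero fun p _ => ?_
      have : t i = t' i := h
      rw [this, sub_self, smul_zero]
    · rw [if_pos h, mul_one]
      refine norm_col_le _ u (hinj.mono ?_) _ _ _ 2 (by norm_num) ?_
      · exact_mod_cast filter_subset _ _
      · exact coef_sum N i hN _ (filter_subset _ _)

end Pool.Agent.H363.IC
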